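import Pool.Agent.H74R2.WT.Stmts

set_option autoImplicit false

open MeasureTheory Set

namespace H74R2.WT

namespace F1x

theorem hs_Ioo (G : Set ℂ) (y p q : ℝ) (h : ∀ x, (⟨x, y⟩ : ℂ) ∈ G ↔ p < x ∧ x < q)
    (hpq : p ≤ q) : hs G y = q - p := by
  unfold hs
  have : {x : ℝ | (⟨x, y⟩ : ℂ) ∈ G} = Ioo p q := by
    ext x
    exact h x
  rw [this, Real.volume_Ioo, ENNReal.toReal_ofReal (by linarith)]

theorem hs_empty (G : Set ℂ) (y : ℝ) (h : ∀ x, (⟨x, y⟩ : ℂ) ∉ G) : hs G y = 0 := by
  unfold hs
  have : {x : ℝ | (⟨x, y⟩ : ℂ) ∈ G} = ∅ := by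
    ext x
    simpa using h x
  rw [this]
  simp

theorem f_in {K : Subfield ℝ} (p : Piece K) (s : ℝ) (h1 : p.a < s) (h2 : s < p.b) :
    p.f s = p.c + (p.k : ℝ) * s := by
  unfold Piece.f
  rw [if_pos ⟨h1, h2⟩]

theorem f_lo {K : Subfield ℝ} (p : Piece K) (s : ℝ) (h1 : s ≤ p.a) : p.f s = 0 := by
  unfold Piece.f
  rw [if_neg (fun h => absurd h.1 (not_lt.mpr h1))]

theorem f_hi {K : Subfield ℝ} (p : Piece K) (s : ℝ) (h1 : p.b ≤ s) : p.f s = 0 := by
  unfold Piece.f
  rw [if_neg (fun h => absurd h.2 (not_lt.mpr h1))]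

theorem mem_U (a b c k M x y : ℝ) : (⟨x, y⟩ : ℂ) ∈ Under a b c k M ↔
    (a < x ∧ x < b) ∧ (-M < y ∧ y < c + k * x) := Iff.rfl

end F1x

open F1x in
theorem t_F1 : T_F1 := by
  intro K σ φ hφ a b c M k hab h1 h2
  have hsub : ∀ x y, φ (x - y) = φ x - φ y := fun x y => map_sub φ x y
  have hadd : ∀ x y, φ (x + y) = φ x + φ y := fun x y => map_add φ x y
  have hneg : ∀ x, φ (-x) = -φ x := fun x => map_neg φ x
  rcases lt_trichotomy (k : ℝ) 0 with hk | hk | hk
  · -- negative slope
    have hk0 : (k : ℝ) ≠ 0 := hk.ne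
    have hkK : k ≠ 0 := fun h => hk0 (by rw [h]; rfl)
    have hκ : σ k ≠ 0 := fun h => hkK ((map_eq_zero σ).mp h)
    have hcd : c + (k : ℝ) * b < c + (k : ℝ) * a := by nlinarith
    let p1 : Piece K := ⟨-M, c + (k : ℝ) * b, b - a, 0, h2⟩
    let p2 : Piece K := ⟨c + (k : ℝ) * b, c + (k : ℝ) * a, -a - c / (k : ℝ), k⁻¹, hcd⟩
    refine ⟨[p1, p2], ?_, ?_⟩
    · show ∀ᵐ y : ℝ, _
      filter_upwards [compl_mem_ae_iff.mpr (measure_singleton (c + (k : ℝ) * b))] with y hy
      have hy' : y ≠ c + (k : ℝ) * b := by simpa using hy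
      simp only [List.map_cons, List.map_nil, List.sum_cons, List.sum_nil, add_zero]
      rcases le_or_gt y (-M) with h3 | h3
      · rw [f_lo p1 y h3, f_lo p2 y (h3.trans h2.le), add_zero]
        apply hs_empty
        intro x hx
        rw [mem_U] at hx
        linarith [hx.2.1]
      rcases lt_or_gt_of_ne hy' with h4 | h4
      · rw [f_in p1 y h3 h4, f_lo p2 y h4.le, add_zero]
        show _ = (b - a) + ((0 : K) : ℝ) * y
        rw [hs_Ioo _ y a b _ hab.le]
        · simp
        · intro x
          rw [mem_U]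
          constructor
          · exact fun h => h.1
          · intro h
            refine ⟨h, h3, ?_⟩
            nlinarith [h.2]
      rcases le_or_gt (c + (k : ℝ) * a) y with h5 | h5
      · rw [f_hi p1 y h4.le, f_hi p2 y h5, add_zero]
        apply hs_empty
        intro x hx
        rw [mem_U] at hx
        nlinarith [hx.2.2, hx.1.1]
      · rw [f_hi p1 y h4.le, f_in p2 y h4 h5, zero_add]
        show _ = (-a - c / (k : ℝ)) + ((k⁻¹ : K) : ℝ) * y
        have h6 : a < (y - c) / (k : ℝ) := by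
          rw [lt_div_iff_of_neg hk]
          linarith
        rw [hs_Ioo _ y a ((y - c) / (k : ℝ)) _ h6.le]
        · push_cast
          field_simp
          ring
        · intro x
          rw [mem_U]
          have h7 : x < (y - c) / (k : ℝ) ↔ y < c + (k : ℝ) * x := by
            rw [lt_div_iff_of_neg hk]
            constructor <;> intro h <;> linarith
          have h8 : (y - c) / (k : ℝ) < b := by
            rw [div_lt_iff_of_neg hk]
            linarith
          rw [h7]
          constructor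
          · exact fun h => ⟨h.1.1, h.2.2⟩
          · exact fun h => ⟨⟨h.1, (h7.mpr h.2).trans h8⟩, h3, h.2⟩
    · simp only [List.map_cons, List.map_nil, List.sum_cons, List.sum_nil, add_zero]
      show (φ (b - a) * (φ (c + (k : ℝ) * b) - φ (-M)) + 1 / 2 * σ 0 *
          ((φ (c + (k : ℝ) * b)) ^ 2 - (φ (-M)) ^ 2)) +
        (φ (-a - c / (k : ℝ)) * (φ (c + (k : ℝ) * a) - φ (c + (k : ℝ) * b)) + 1 / 2 * σ k⁻¹ *
          ((φ (c + (k : ℝ) * a)) ^ 2 - (φ (c + (k : ℝ) * b)) ^ 2)) = _
      have hC : φ (c / (k : ℝ)) = φ c / σ k := by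
        have := hφ k (c / (k : ℝ))
        rw [mul_div_cancel₀ _ hk0] at this
        rw [this, mul_div_cancel_left₀ _ hκ]
      rw [hsub, hsub, hadd, hadd, hadd, hneg, hneg, hφ, hφ, hC, map_zero, map_inv₀]
      field_simp
      ring
  · -- slope zero
    have hkK : k = 0 := Subtype.ext hk
    subst hkK
    simp only [ZeroMemClass.coe_zero, zero_mul, add_zero] at h1 h2 ⊢
    let p1 : Piece K := ⟨-M, c, b - a, 0, h1⟩
    refine ⟨[p1], ?_, ?_⟩
    · refine ae_of_all _ fun y => ?_
      simp only [List.map_cons, List.map_nil, List.sum_cons, List.sum_nil, add_zero]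
      rcases le_or_gt y (-M) with h3 | h3
      · rw [f_lo p1 y h3]
        apply hs_empty
        intro x hx
        rw [mem_U] at hx
        linarith [hx.2.1]
      rcases lt_or_ge y c with h4 | h4
      · rw [f_in p1 y h3 h4]
        show _ = (b - a) + ((0 : K) : ℝ) * y
        rw [hs_Ioo _ y a b _ hab.le]
        · simp
        · intro x
          rw [mem_U]
          constructor
          · exact fun h => h.1
          · intro h
            refine ⟨h, h3, ?_⟩
            simpa using h4
      · rw [f_hi p1 y h4]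
        apply hs_empty
        intro x hx
        rw [mem_U] at hx
        linarith [hx.2.2]
    · simp only [List.map_cons, List.map_nil, List.sum_cons, List.sum_nil, add_zero]
      show φ (b - a) * (φ c - φ (-M)) + 1 / 2 * σ 0 * ((φ c) ^ 2 - (φ (-M)) ^ 2) = _
      rw [hsub, hadd, hneg, map_zero]
      ring
  · -- positive slope
    have hk0 : (k : ℝ) ≠ 0 := hk.ne'
    have hkK : k ≠ 0 := fun h => hk0 (by rw [h]; rfl)
    have hκ : σ k ≠ 0 := fun h => hkK ((map_eq_zero σ).mp h)
    have hcd : c + (k : ℝ) * a < c + (k : ℝ) * b := by nlinarith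
    let p1 : Piece K := ⟨-M, c + (k : ℝ) * a, b - a, 0, h1⟩
    let p2 : Piece K := ⟨c + (k : ℝ) * a, c + (k : ℝ) * b, b + c / (k : ℝ), -k⁻¹, hcd⟩
    refine ⟨[p1, p2], ?_, ?_⟩
    · show ∀ᵐ y : ℝ, _
      filter_upwards [compl_mem_ae_iff.mpr (measure_singleton (c + (k : ℝ) * a))] with y hy
      have hy' : y ≠ c + (k : ℝ) * a := by simpa using hy
      simp only [List.map_cons, List.map_nil, List.sum_cons, List.sum_nil, add_zero]
      rcases le_or_gt y (-M) with h3 | h3
      · rw [f_lo p1 y h3, f_lo p2 y (h3.trans h1.le), add_zero]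
        apply hs_empty
        intro x hx
        rw [mem_U] at hx
        linarith [hx.2.1]
      rcases lt_or_gt_of_ne hy' with h4 | h4
      · rw [f_in p1 y h3 h4, f_lo p2 y h4.le, add_zero]
        show _ = (b - a) + ((0 : K) : ℝ) * y
        rw [hs_Ioo _ y a b _ hab.le]
        · simp
        · intro x
          rw [mem_U]
          constructor
          · exact fun h => h.1
          · intro h
            refine ⟨h, h3, ?_⟩
            nlinarith [h.1]
      rcases le_or_gt (c + (k : ℝ) * b) y with h5 | h5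
      · rw [f_hi p1 y h4.le, f_hi p2 y h5, add_zero]
        apply hs_empty
        intro x hx
        rw [mem_U] at hx
        nlinarith [hx.2.2, hx.1.2]
      · rw [f_hi p1 y h4.le, f_in p2 y h4 h5, zero_add]
        show _ = (b + c / (k : ℝ)) + ((-k⁻¹ : K) : ℝ) * y
        have h6 : (y - c) / (k : ℝ) < b := by
          rw [div_lt_iff₀ hk]
          linarith
        rw [hs_Ioo _ y ((y - c) / (k : ℝ)) b _ h6.le]
        · push_cast
          field_simp
          ring
        · intro x
          rw [mem_U]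
          have h7 : (y - c) / (k : ℝ) < x ↔ y < c + (k : ℝ) * x := by
            rw [div_lt_iff₀ hk]
            constructor <;> intro h <;> linarith
          have h8 : a < (y - c) / (k : ℝ) := by
            rw [lt_div_iff₀ hk]
            linarith
          rw [h7]
          constructor
          · exact fun h => ⟨h.2.2, h.1.2⟩
          · exact fun h => ⟨⟨h8.trans (h7.mpr h.1), h.2⟩, h3, h.1⟩
    · simp only [List.map_cons, List.map_nil, List.sum_cons, List.sum_nil, add_zero]
      show (φ (b - a) * (φ (c + (k : ℝ) * a) - φ (-M)) + 1 / 2 * σ 0 *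
          ((φ (c + (k : ℝ) * a)) ^ 2 - (φ (-M)) ^ 2)) +
        (φ (b + c / (k : ℝ)) * (φ (c + (k : ℝ) * b) - φ (c + (k : ℝ) * a)) + 1 / 2 * σ (-k⁻¹) *
          ((φ (c + (k : ℝ) * b)) ^ 2 - (φ (c + (k : ℝ) * a)) ^ 2)) = _
      have hC : φ (c / (k : ℝ)) = φ c / σ k := by
        have := hφ k (c / (k : ℝ))
        rw [mul_div_cancel₀ _ hk0] at this
        rw [this, mul_div_cancel_left₀ _ hκ]
      rw [hsub, hadd, hadd, hadd, hadd, hneg, hφ, hφ, hC, map_zero, map_neg, map_inv₀]
      field_simp
      ring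

end H74R2.WT
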